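import Mathlib
import Pool.Agent.H.MP_f2a48e_co.A
set_option autoImplicit false

namespace Pool.Agent.Results.MP_f2a48e_co.Yes
open Finset Filter Pool.Agent.H.MP_f2a48e_co

/-- A 0-1 matrix is given by its set of 1-entries. `A` contains `P`. -/
def Contains {a b c d : ℕ} (A : Finset (Fin a × Fin b)) (P : Finset (Fin c × Fin d)) : Prop :=
  ∃ (f : Fin c → Fin a) (g : Fin d → Fin b), StrictMono f ∧ StrictMono g ∧
    ∀ x ∈ P, (f x.1, g x.2) ∈ A

noncomputable def ex {c d : ℕ} (n : ℕ) (P : Finset (Fin c × Fin d)) : ℕ :=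
  sSup {k | ∃ A : Finset (Fin n × Fin n), ¬ Contains A P ∧ A.card = k}

noncomputable def LSM {a b c d : ℕ} (A : Finset (Fin a × Fin b)) (P : Finset (Fin c × Fin d)) : ℕ :=
  sSup {k | ∃ B ⊆ A, ¬ Contains B P ∧ B.card = k}

noncomputable def sm {c d : ℕ} (m : ℕ) (P : Finset (Fin c × Fin d)) : ℕ :=
  sInf {k | ∃ (a b : ℕ) (A : Finset (Fin a × Fin b)), A.card = m ∧ LSM A P = k}

/-- the matrix with rows `1 0 1 0` and `0 1 0 1` -/
def P0 : Finset (Fin 2 × Fin 4) := {(0, 0), (1, 1), (0, 2), (1, 3)}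

theorem le_LSM {a b : ℕ} {A B : Finset (Fin a × Fin b)} (h : B ⊆ A) (hB : ¬ Contains B P0) :
    B.card ≤ LSM A P0 :=
  le_csSup ⟨A.card, by
    rintro _ ⟨B, h, -, rfl⟩
    exact card_le_card h⟩ ⟨B, h, hB, rfl⟩

theorem lower {a b : ℕ} (A : Finset (Fin a × Fin b)) : A.card ≤ LSM A P0 * LSM A P0 := by
  refine (card_le_mul_card_image (f := Prod.fst) A (LSM A P0) fun r _ => le_LSM (filter_subset _ _)
    fun ⟨f, g, hf, _, h⟩ => ?_).trans (Nat.mul_le_mul_left _ ?_)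
  · have h1 := (mem_filter.1 (h (0, 0) (by decide))).2
    have h2 := (mem_filter.1 (h (1, 1) (by decide))).2
    exact absurd (hf.injective (h1.trans h2.symm)) (by decide)
  · obtain ⟨B, b1, b2, b3⟩ := exists_subset_injOn_image_eq_of_surjOn (f := Prod.fst) (A : Set _)
      (A.image Prod.fst) (by rw [coe_image]; exact Set.surjOn_image _ _)
    rw [← b3, card_image_of_injOn b2]
    refine le_LSM b1 fun ⟨f, g, _, hg, h⟩ => ?_
    have := b2 (h (0, 0) (by decide)) (h (0, 2) (by decide)) rfl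
    exact absurd (hg.injective (Prod.mk.inj this).2) (by decide)

theorem upper (m r : ℕ) (hr : 0 < r) (h : m ≤ r * r) : sm m P0 ≤ 3 * r := by
  let F : Fin m → Fin r × Fin m := fun t => ((⟨t % r, Nat.mod_lt _ hr⟩ : Fin r).rev, t)
  have h1 : sm m P0 ≤ LSM (univ.image F) P0 := Nat.sInf_le ⟨r, m, univ.image F, by
    rw [card_image_of_injective _ fun s t h => (Prod.mk.inj h).2, card_fin], rfl⟩
  refine h1.trans (csSup_le' ?_)
  rintro _ ⟨B, hB, hP, rfl⟩
  have k : ∀ x ∈ B, x.1.1 + 1 + x.2.1 % r = r := fun x hx => by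
    obtain ⟨t, -, rfl⟩ := mem_image.1 (hB hx)
    have := Nat.mod_lt t hr
    simp only [F, Fin.val_rev]
    omega
  have sub : B ⊆ (B.filter (fun x => ∀ y ∈ B, y.1 = x.1 → x.2 ≤ y.2) ∪
      B.filter (fun x => ∀ y ∈ B, y.1 = x.1 → y.2 ≤ x.2)) ∪
      B.filter fun x => (∃ y ∈ B, y.1 = x.1 ∧ y.2 < x.2) ∧ ∃ y ∈ B, y.1 = x.1 ∧ x.2 < y.2 := by
    intro x hx
    by_contra hc
    simp only [mem_union, mem_filter, hx, true_and, not_or, not_forall, not_le, exists_prop] at hc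
    exact hc.2 hc.1
  have c1 : (B.filter fun x => ∀ y ∈ B, y.1 = x.1 → x.2 ≤ y.2).card ≤ r := by
    refine (card_le_card_of_injOn Prod.fst (fun _ _ => mem_univ _) fun x hx y hy e => ?_).trans
      (card_fin r).le
    obtain ⟨a1, a2⟩ := mem_filter.1 hx
    obtain ⟨b1, b2⟩ := mem_filter.1 hy
    exact Prod.ext e (le_antisymm (a2 y b1 e.symm) (b2 x a1 e))
  have c2 : (B.filter fun x => ∀ y ∈ B, y.1 = x.1 → y.2 ≤ x.2).card ≤ r := by
    refine (card_le_card_of_injOn Prod.fst (fun _ _ => mem_univ _) fun x hx y hy e => ?_).trans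
      (card_fin r).le
    obtain ⟨a1, a2⟩ := mem_filter.1 hx
    obtain ⟨b1, b2⟩ := mem_filter.1 hy
    exact Prod.ext e (le_antisymm (b2 x a1 e) (a2 y b1 e.symm))
  have c3 : (B.filter fun x => (∃ y ∈ B, y.1 = x.1 ∧ y.2 < x.2) ∧
      ∃ y ∈ B, y.1 = x.1 ∧ x.2 < y.2).card ≤ r := by
    have key : ∀ x ∈ B, ∀ y ∈ B, (∃ z ∈ B, z.1 = x.1 ∧ z.2 < x.2) → (∃ z ∈ B, z.1 = y.1 ∧ y.2 < z.2) →
        x.2.1 / r = y.2.1 / r → ¬ y.2 < x.2 := by
      rintro ⟨a, s⟩ hx ⟨b, t⟩ hy ⟨⟨a', s'⟩, z1, rfl, z2⟩ ⟨⟨b', t'⟩, w1, rfl, w2⟩ e lt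
      have k1 := k _ hx
      have k2 := k _ hy
      have k3 := k _ z1
      have k4 := k _ w1
      have d1 := Nat.div_add_mod s r
      have d2 := Nat.div_add_mod t r
      have d3 := Nat.div_add_mod s' r
      have d4 := Nat.div_add_mod t' r
      simp only [Fin.lt_def] at *
      rw [← e] at d2
      have l1 : (s' : ℕ) / r + 1 ≤ s / r := Nat.lt_of_mul_lt_mul_left (a := r) (by omega)
      have l2 : (s : ℕ) / r + 1 ≤ t' / r := Nat.lt_of_mul_lt_mul_left (a := r) (by omega)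
      have l3 := Nat.mul_le_mul_left r l1
      have l4 := Nat.mul_le_mul_left r l2
      rw [mul_add, mul_one] at l3 l4
      refine hP ⟨![a', b'], ![s', t, s, t'], Fin.strictMono_iff_lt_succ.2 fun i => ?_,
        Fin.strictMono_iff_lt_succ.2 fun i => ?_, by simp [P0, *]⟩
      · fin_cases i
        simp only [Fin.lt_def]
        simp
        omega
      · fin_cases i <;> simp only [Fin.lt_def] <;> simp <;> omega
    refine (card_le_card_of_injOn (t := range r) (fun x => x.2.1 / r) (fun x _ => mem_coe.2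
      (mem_range.2 (Nat.div_lt_of_lt_mul (x.2.2.trans_le h)))) fun x hx y hy e => ?_).trans
      (card_range r).le
    obtain ⟨a1, a2, a3⟩ := mem_filter.1 hx
    obtain ⟨b1, b2, b3⟩ := mem_filter.1 hy
    have e2 := le_antisymm (not_lt.1 (key x a1 y b1 a2 b3 e)) (not_lt.1 (key y b1 x a1 b2 a3 e.symm))
    have k1 := k _ a1
    have k2 := k _ b1
    exact Prod.ext (Fin.ext (by rw [e2] at k1; omega)) e2
  have := (card_le_card sub).trans ((card_union_le _ _).trans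
    (Nat.add_le_add_right (card_union_le _ _) _))
  omega

theorem result : ∃ (c d : ℕ) (P : Finset (Fin c × Fin d)),
    Tendsto (fun n : ℕ => (ex n P : ℝ) / n) atTop atTop ∧
    ∃ c₁ c₂ : ℝ, 0 < c₁ ∧ 0 < c₂ ∧ ∀ᶠ m : ℕ in atTop,
      c₁ * √m ≤ sm m P ∧ sm m P ≤ c₂ * √m := by
  refine ⟨2, 4, P0, tendsto_atTop.2 fun b => ?_, 1, 6, one_pos, by norm_num,
    (eventually_ge_atTop 1).mono fun m hm => ⟨?_, ?_⟩⟩
  · obtain ⟨k, hk⟩ := exists_nat_ge b
    obtain ⟨N, H⟩ := superlin k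
    filter_upwards [eventually_ge_atTop N, eventually_gt_atTop 0] with n h1 h2
    obtain ⟨A, a1, a2⟩ := H n h1
    have h3 : A.card ≤ ex n P0 := le_csSup ⟨(univ : Finset (Fin n × Fin n)).card, by
      rintro _ ⟨B, -, rfl⟩
      exact card_le_univ B⟩ ⟨A, fun ⟨f, g, hf, hg, h⟩ => a1 _ _ _ _ _ _ (hf (show 0 < 1 by decide))
        (hg (show 0 < 1 by decide)).not_gt (hg (show 1 < 2 by decide))
        (hg (show 2 < 3 by decide)).not_gt (h (0, 0) (by decide)) (h (1, 1) (by decide))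
        (h (0, 2) (by decide)) (h (1, 3) (by decide)), rfl⟩
    rw [le_div_iff₀ (by positivity)]
    exact (mul_le_mul_of_nonneg_right hk (by positivity)).trans (by exact_mod_cast a2.trans h3)
  · obtain ⟨a, b, A, h1, h2⟩ : sm m P0 ∈ _ := Nat.sInf_mem
      (⟨_, 1, m, univ, by simp, rfl⟩ : Set.Nonempty
        {k | ∃ (a b : ℕ) (A : Finset (Fin a × Fin b)), A.card = m ∧ LSM A P0 = k})
    rw [one_mul, Real.sqrt_le_left (by positivity), ← h2, ← h1, sq]
    exact_mod_cast lower A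
  · have h1 : (sm m P0 : ℝ) ≤ 3 * (m.sqrt + 1) := by
      exact_mod_cast upper m _ (Nat.succ_pos _) (Nat.lt_succ_sqrt m).le
    have h2 : (m.sqrt : ℝ) ≤ √m := Real.nat_sqrt_le_real_sqrt
    have h3 : (1 : ℝ) ≤ √m := Real.one_le_sqrt.2 (by exact_mod_cast hm)
    linarith

end Pool.Agent.Results.MP_f2a48e_co.Yes
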